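import Mathlib
import Pool.Agent.Y377.IL.StmA

set_option autoImplicit false

/-! Taylor series of analytic germs (job IL-TAY, project of helper377). -/

namespace Pool.Agent.Y564.IL

open Pool.Agent.Y377.IL

theorem tay_coeff (z0 : ℂ) (f : ℂ → ℂ) (n : ℕ) :
    PowerSeries.coeff n (tay z0 f) = iteratedDeriv n f z0 / n.factorial := by
  unfold tay
  rw [PowerSeries.coeff_mk]

theorem t_TAY : S_TAY := by
  intro z0
  refine ⟨?_, ?_, ?_, ?_, ?_⟩
  · intro c
    ext n
    rw [tay_coeff, iteratedDeriv_const, PowerSeries.algebraMap_apply, Algebra.algebraMap_self,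
      RingHom.id_apply, PowerSeries.coeff_C]
    by_cases h : n = 0
    · subst h
      simp
    · simp [h]
  · intro f g hf hg
    refine ⟨?_, ?_⟩
    · ext n
      rw [map_add, tay_coeff, tay_coeff, tay_coeff]
      have h := iteratedDeriv_add (n := n) (x := z0) (hf.contDiffAt) (hg.contDiffAt)
      have h2 : iteratedDeriv n (fun z => f z + g z) z0 = iteratedDeriv n (f + g) z0 := rfl
      rw [h2, h, add_div]
    · ext n
      rw [PowerSeries.coeff_mul, tay_coeff]
      have h := iteratedDeriv_mul (n := n) (x := z0) (hf.contDiffAt) (hg.contDiffAt)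
      have h2 : iteratedDeriv n (fun z => f z * g z) z0 = iteratedDeriv n (f * g) z0 := rfl
      rw [h2, h, Finset.sum_div, Finset.Nat.sum_antidiagonal_eq_sum_range_succ_mk]
      refine Finset.sum_congr rfl fun i hi => ?_
      have hin : i ≤ n := Nat.lt_succ_iff.1 (Finset.mem_range.1 hi)
      rw [tay_coeff, tay_coeff]
      have h3 := Nat.choose_mul_factorial_mul_factorial hin
      have h4 : (n.factorial : ℂ) = (n.choose i : ℂ) * i.factorial * (n - i).factorial := by
        exact_mod_cast h3.symm
      have h5 : (i.factorial : ℂ) ≠ 0 := by exact_mod_cast i.factorial_ne_zero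
      have h6 : ((n - i).factorial : ℂ) ≠ 0 := by exact_mod_cast (n - i).factorial_ne_zero
      have h7 : (n.choose i : ℂ) ≠ 0 := by exact_mod_cast (Nat.choose_pos hin).ne'
      rw [h4]
      field_simp
  · intro f _
    ext n
    rw [tay_coeff, PowerSeries.coeff_derivative, tay_coeff, ← iteratedDeriv_succ',
      Nat.factorial_succ]
    have h5 : (n.factorial : ℂ) ≠ 0 := by exact_mod_cast n.factorial_ne_zero
    have h6 : ((n : ℂ) + 1) ≠ 0 := by exact_mod_cast n.succ_ne_zero
    push_cast
    field_simp
  · intro f g h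
    ext n
    rw [tay_coeff, tay_coeff]
    rw [Filter.EventuallyEq.iteratedDeriv_eq n h]
  · intro f hf h
    rw [← analyticOrderAt_eq_top, ENat.eq_top_iff_forall_ge]
    intro m
    rw [natCast_le_analyticOrderAt_iff_iteratedDeriv_eq_zero hf]
    intro i _
    have h1 := tay_coeff z0 f i
    rw [h, map_zero] at h1
    have h5 : (i.factorial : ℂ) ≠ 0 := by exact_mod_cast i.factorial_ne_zero
    have := (div_eq_zero_iff.1 h1.symm)
    rcases this with h2 | h2
    · exact h2
    · exact absurd h2 h5

end Pool.Agent.Y564.IL
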